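import Pool.Agent.Helper25.GP.RE
import Pool.Agent.Helper40.GP.Stm2
import Mathlib.RingTheory.Polynomial.Radical

/-! # A separable divisor of the gap polynomial (not a result) -/

set_option autoImplicit false

open Polynomial

namespace Pool.Agent.Helper25.GP

open Pool.Agent.Helper40.GP Pool.Agent.Helper88.GP
open UniqueFactorizationMonoid EuclideanDomain

/-- the polynomial divisible by the multiple part -/
noncomputable def PQ (A : ℤ[X]) (n : ℕ) : ℤ[X] := C (n : ℤ) * (A * A.reverse) + X * JJ A

lemma key_id (A : ℤ[X]) (s : ℤ) (m : ℕ) :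
    PQ A (m + 1) =
      gp A s (m + 1) * (C ((m + 1 : ℕ) : ℤ) * A.reverse + X * derivative A.reverse) -
        X * A.reverse * derivative (gp A s (m + 1)) := by
  unfold PQ gp JJ
  simp only [derivative_add, derivative_mul, derivative_C, zero_mul, zero_add, derivative_X_pow,
    add_tsub_cancel_right]
  push_cast
  ring

lemma PQ_deg {A : ℤ[X]} (h : Good A) (n : ℕ) (hn : 0 < n) :
    (PQ A n).natDegree = 2 * A.natDegree := by
  have ha := h.deg
  have h1 : (C (n : ℤ) * (A * A.reverse)).natDegree = 2 * A.natDegree := by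
    rw [natDegree_C_mul (by exact_mod_cast hn.ne'), natDegree_mul (ne_zero h) (rev_ne_zero h),
      natDegree_rev h]
    ring
  have h2 : (X * JJ A).natDegree < 2 * A.natDegree := by
    have := natDegree_mul_le (p := (X : ℤ[X])) (q := JJ A)
    rw [natDegree_X] at this
    have := JJ_deg h
    omega
  unfold PQ
  rw [natDegree_add_eq_left_of_natDegree_lt (by rw [h1]; exact h2), h1]

theorem rd : S_RD := by
  classical
  intro A s n hA hs hn
  obtain ⟨hd, hl⟩ := gp_deg hA hs hn
  have ha1 : 1 ≤ A.natDegree := hA.deg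
  obtain ⟨m, rfl⟩ : ∃ m, n = m + 1 := ⟨n - 1, by omega⟩
  have hkey := key_id A s m
  set f := gp A s (m + 1) with hf
  have hf0 : f ≠ 0 := by
    intro h0
    rw [h0, leadingCoeff_zero, abs_zero] at hl
    exact zero_ne_one hl
  set e : ℤ := f.leadingCoeff with he
  have he2 : e * e = 1 := by
    have := abs_mul_abs_self e
    rw [hl, mul_one] at this
    exact this.symm
  have hmon : (C e * f).Monic := by
    rw [Monic, leadingCoeff_mul, leadingCoeff_C]
    exact he2
  have hinj : Function.Injective (algebraMap ℤ ℚ) := by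
    rw [algebraMap_int_eq]
    exact Int.cast_injective
  set q : ℚ[X] := f.map (algebraMap ℤ ℚ) with hq
  have hq0 : q ≠ 0 := (Polynomial.map_ne_zero_iff hinj).2 hf0
  have hrg : radical q * divRadical q = q := radical_mul_divRadical
  have hr0 : radical q ≠ 0 := radical_ne_zero
  have hg0 : divRadical q ≠ 0 := divRadical_ne_zero hq0
  have hrd : radical q ∣ (C e * f).map (algebraMap ℤ ℚ) := by
    rw [Polynomial.map_mul]
    exact Dvd.dvd.mul_left radical_dvd_self _
  obtain ⟨F, hF⟩ := IsIntegrallyClosed.eq_map_mul_C_of_dvd ℚ hmon hrd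
  have hFm : F.Monic := by
    have h1 := congrArg leadingCoeff hF
    rw [leadingCoeff_mul, leadingCoeff_C, leadingCoeff_map_of_injective hinj] at h1
    have h2 : (algebraMap ℤ ℚ) F.leadingCoeff = 1 :=
      mul_right_cancel₀ (leadingCoeff_ne_zero.2 hr0) (by rw [h1, one_mul])
    exact hinj (by rw [h2, map_one])
  have hFd : F ∣ f := by
    rw [← map_dvd_map _ hinj hFm]
    exact (Dvd.intro _ hF).trans (Dvd.intro _ hrg)
  obtain ⟨G, hG⟩ := hFd
  have hsep : (F.map (algebraMap ℤ ℚ)).Separable := by
    have h1 : (radical q).Separable :=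
      PerfectField.separable_iff_squarefree.2 squarefree_radical
    exact h1.of_dvd (Dvd.intro _ hF)
  have hFdeg : F.natDegree = (radical q).natDegree := by
    rw [← hF, natDegree_mul_C (leadingCoeff_ne_zero.2 hr0), natDegree_map_eq_of_injective hinj]
  have hgdeg : (divRadical q).natDegree ≤ 2 * A.natDegree := by
    have h1 : divRadical q ∣ derivative q := divRadical_dvd_derivative q
    have h2 : divRadical q ∣ q := divRadical_dvd_self q
    have h3 : divRadical q ∣ (PQ A (m + 1)).map (algebraMap ℤ ℚ) := by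
      rw [hkey, Polynomial.map_sub, Polynomial.map_mul, Polynomial.map_mul (p := X * A.reverse),
        ← derivative_map]
      exact dvd_sub (Dvd.dvd.mul_right h2 _) (Dvd.dvd.mul_left h1 _)
    have h4 := PQ_deg hA (m + 1) (Nat.succ_pos m)
    have h5 : (PQ A (m + 1)).map (algebraMap ℤ ℚ) ≠ 0 := by
      rw [Polynomial.map_ne_zero_iff hinj]
      intro h0
      rw [h0, natDegree_zero] at h4
      omega
    have h6 := natDegree_le_of_dvd h3 h5
    rw [natDegree_map_eq_of_injective hinj, h4] at h6
    exact h6
  have hqdeg : q.natDegree = m + 1 + A.natDegree := by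
    rw [hq, natDegree_map_eq_of_injective hinj, hd]
  rw [← hrg, natDegree_mul hr0 hg0] at hqdeg
  refine ⟨F, G, hG, ?_, by omega, by omega, ?_⟩
  · have h1 := hsep.map (f := algebraMap ℚ ℂ)
    rw [Polynomial.map_map, show (algebraMap ℚ ℂ).comp (algebraMap ℤ ℚ) = Int.castRingHom ℂ from
      RingHom.ext_int _ _] at h1
    exact h1
  · rw [hFm.leadingCoeff, abs_one]

end Pool.Agent.Helper25.GP
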