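import Pool.Agent.Helper40.GP.Stm
import Pool.Agent.Helper88.GP.VY

/-! # The values at the zeros of the gap polynomial, the zeros of the Wronskian (not a result) -/

set_option autoImplicit false

open Polynomial

namespace Pool.Agent.Helper25.GP

open Pool.Agent.Helper40.GP Pool.Agent.Helper88.GP

lemma norm_msprod (s : Multiset ℂ) (f : ℂ → ℂ) :
    ‖(s.map f).prod‖ = (s.map fun x => ‖f x‖).prod := by
  induction s using Multiset.induction_on with
  | empty => simp
  | cons a s ih => rw [Multiset.map_cons, Multiset.prod_cons, Multiset.map_cons,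
      Multiset.prod_cons, norm_mul, ih]

/-- a nonzero resultant of two integer polynomials has absolute value at least one -/
lemma res_ge (F G : ℤ[X]) (hF : F ≠ 0) (hne : ∀ x ∈ (cc F).roots, (cc G).eval x ≠ 0) :
    1 ≤ |(F.leadingCoeff : ℝ)| ^ G.natDegree *
      ((cc F).roots.map fun x => ‖(cc G).eval x‖).prod := by
  have h1 := resultant_eq_prod_eval (cc F) (cc G) G.natDegree (by rw [natDegree_cc])
    (IsAlgClosed.splits _)
  rw [natDegree_cc, lead_cc] at h1
  have h2 : resultant (cc F) (cc G) F.natDegree G.natDegree =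
      ((resultant F G F.natDegree G.natDegree : ℤ) : ℂ) := by
    unfold cc
    rw [resultant_map_map]
    rfl
  rw [h2] at h1
  have h3 : ((F.leadingCoeff : ℂ)) ^ G.natDegree * ((cc F).roots.map (cc G).eval).prod ≠ 0 := by
    refine mul_ne_zero (pow_ne_zero _ ?_) ?_
    · exact_mod_cast leadingCoeff_ne_zero.2 hF
    · rw [Ne, Multiset.prod_eq_zero_iff]
      intro h
      obtain ⟨x, hx, hx0⟩ := Multiset.mem_map.1 h
      exact hne x hx hx0
  have h4 : resultant F G F.natDegree G.natDegree ≠ 0 := by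
    intro h
    rw [h, Int.cast_zero] at h1
    exact h3 h1.symm
  have h5 := congrArg norm h1
  rw [norm_mul, norm_pow, Complex.norm_intCast, Complex.norm_intCast, norm_msprod] at h5
  rw [← h5]
  have h6 : (1 : ℤ) ≤ |resultant F G F.natDegree G.natDegree| := Int.one_le_abs h4
  have h7 : ((1 : ℤ) : ℝ) ≤ ((|resultant F G F.natDegree G.natDegree| : ℤ) : ℝ) :=
    Int.cast_le.2 h6
  rw [Int.cast_one, Int.cast_abs] at h7
  exact h7

lemma coeff0_ne {A : ℤ[X]} (h : Good A) : A.coeff 0 ≠ 0 := by
  intro h1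
  have := h.const
  rw [h1, abs_zero] at this
  exact zero_ne_one this

lemma ne_zero {A : ℤ[X]} (h : Good A) : A ≠ 0 := by
  rintro rfl
  exact coeff0_ne h (coeff_zero 0)

lemma rev_ne_zero {A : ℤ[X]} (h : Good A) : A.reverse ≠ 0 := by
  intro h1
  have := lead_rev h
  rw [h1, leadingCoeff_zero] at this
  exact coeff0_ne h this.symm

lemma gp_deg {A : ℤ[X]} {s : ℤ} {n : ℕ} (h : Good A) (hs : s = 1 ∨ s = -1)
    (hn : A.natDegree < n) :
    (gp A s n).natDegree = n + A.natDegree ∧ |(gp A s n).leadingCoeff| = 1 := by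
  have hs0 : s ≠ 0 := by rcases hs with rfl | rfl <;> norm_num
  have hs1 : |s| = 1 := by rcases hs with rfl | rfl <;> norm_num
  have hT0 : (C s * X ^ n : ℤ[X]) ≠ 0 := by
    rw [Ne, C_mul_X_pow_eq_monomial, monomial_eq_zero_iff]
    exact hs0
  have hT : (C s * X ^ n * A.reverse).natDegree = n + A.natDegree := by
    rw [natDegree_mul hT0 (rev_ne_zero h), natDegree_C_mul_X_pow _ _ hs0, natDegree_rev h]
  have hL : (C s * X ^ n * A.reverse).leadingCoeff = s * A.coeff 0 := by
    rw [leadingCoeff_mul, leadingCoeff_C_mul_X_pow, lead_rev h]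
  have hlt : A.natDegree < (C s * X ^ n * A.reverse).natDegree := by
    rw [hT]
    omega
  refine ⟨?_, ?_⟩
  · unfold gp
    rw [natDegree_add_eq_right_of_natDegree_lt hlt, hT]
  · unfold gp
    rw [leadingCoeff_add_of_degree_lt (degree_lt_degree hlt), hL, abs_mul, hs1, h.const, one_mul]

lemma RR_ge {A : ℤ[X]} (h : Good A) : 1 ≤ RR A := by
  have h1 := res_ge A.reverse A (rev_ne_zero h) (by
    intro x hx h0
    exact not_both h x ⟨h0, (mem_roots'.1 hx).2⟩)
  rw [lead_rev h] at h1
  have h2 : |((A.coeff 0 : ℤ) : ℝ)| = 1 := by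
    rw [← Int.cast_abs, h.const, Int.cast_one]
  rw [h2, one_pow, one_mul] at h1
  exact h1

theorem re : S_RE := by
  intro A s n hA hs hn
  obtain ⟨hd, hl⟩ := gp_deg hA hs hn
  refine ⟨RR_ge hA, hd, hl, fun z hz => ?_⟩
  set f := gp A s n with hf
  have hf0 : f ≠ 0 := by
    rintro h0
    rw [h0, leadingCoeff_zero, abs_zero] at hl
    exact zero_ne_one hl
  have hF0 : cc f ≠ 0 := by
    intro h0
    have := lead_cc f
    rw [h0, leadingCoeff_zero] at this
    exact hf0 (leadingCoeff_eq_zero.1 (by exact_mod_cast this.symm))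
  have hL1 : ‖(cc f).leadingCoeff‖ = 1 := by
    rw [lead_cc, Complex.norm_intCast, ← Int.cast_abs, hl, Int.cast_one]
  have hroots := lists_roots hF0 hz
  have hprod : ∀ G : ℂ → ℝ, ((cc f).roots.map G).prod = ∏ i, G (z i) := by
    intro G
    rw [hroots, Multiset.map_map]
    rfl
  have hM : (∏ i, max 1 ‖z i‖) = (cc f).mahlerMeasure := by
    rw [mahlerMeasure_eq_leadingCoeff_mul_prod_roots, hprod, hL1, one_mul]
  have hev : ∀ x : ℂ, (cc f).eval x = (cc A).eval x + s * x ^ n * (cc A.reverse).eval x := by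
    intro x
    rw [hf]
    unfold gp cc
    simp only [Polynomial.map_add, Polynomial.map_mul, Polynomial.map_pow, map_X, map_C,
      eval_add, eval_mul, eval_pow, eval_X, eval_C]
    rfl
  have hzr : ∀ i, (cc f).eval (z i) = 0 := by
    intro i
    have h1 : z i ∈ (cc f).roots := by
      rw [hroots]
      exact Multiset.mem_map_of_mem _ (Finset.mem_univ_val i)
    exact (mem_roots hF0).1 h1
  have hs1 : ‖(s : ℂ)‖ = 1 := by rcases hs with rfl | rfl <;> norm_num
  have hAB : ∀ i, ‖(cc A).eval (z i)‖ = ‖z i‖ ^ n * ‖(cc A.reverse).eval (z i)‖ := by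
    intro i
    have h1 := hzr i
    rw [hev, add_eq_zero_iff_eq_neg] at h1
    have h2 := congrArg norm h1
    rw [norm_neg, norm_mul, norm_mul, hs1, one_mul, norm_pow] at h2
    exact h2
  have hB0 : ∀ i, (cc A.reverse).eval (z i) ≠ 0 := by
    intro i h0
    have h1 := hAB i
    rw [h0, norm_zero, mul_zero, norm_eq_zero] at h1
    exact not_both hA (z i) ⟨h1, h0⟩
  have hA0 : ∀ i, (cc A).eval (z i) ≠ 0 := by
    intro i h0
    have h1 := hAB i
    rw [h0, norm_zero, zero_eq_mul] at h1
    rcases h1 with h1 | h1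
    · have h2 : z i = 0 := by
        have := (pow_eq_zero_iff (by omega : n ≠ 0)).1 h1
        exact norm_eq_zero.1 this
      rw [h2] at h0
      have h3 : (cc A).coeff 0 = 0 := by
        rw [coeff_zero_eq_eval_zero]
        exact h0
      unfold cc at h3
      rw [coeff_map] at h3
      exact coeff0_ne hA (cc_inj (h3.trans (map_zero _).symm))
    · exact hB0 i (norm_eq_zero.1 h1)
  refine ⟨hM, fun i => ⟨hA0 i, hB0 i⟩, ?_⟩
  have hH : ∀ i, HH A (z i) = ‖(cc A.reverse).eval (z i)‖ * (max 1 ‖z i‖) ^ n := by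
    intro i
    unfold HH
    rw [hAB i]
    have hb := norm_nonneg ((cc A.reverse).eval (z i))
    rcases le_total ‖z i‖ 1 with h | h
    · rw [max_eq_left h, one_pow, mul_one]
      refine max_eq_right ?_
      have := pow_le_one₀ (n := n) (norm_nonneg (z i)) h
      nlinarith
    · rw [max_eq_right h]
      rw [mul_comm]
      refine max_eq_left ?_
      have := one_le_pow₀ (n := n) h
      nlinarith
  simp_rw [hH]
  rw [Finset.prod_mul_distrib, Finset.prod_pow, hM]
  congr 1
  have h1 := res_swap (cc f) (cc A.reverse)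
  have h2 : ‖(cc A.reverse).leadingCoeff‖ = 1 := by
    rw [lead_cc, lead_rev hA, Complex.norm_intCast]
    rw [← Int.cast_abs, hA.const, Int.cast_one]
  rw [hL1, h2, one_pow, one_pow, one_mul, one_mul, hprod] at h1
  rw [h1]
  unfold RR
  congr 1
  refine Multiset.map_congr rfl fun x hx => ?_
  have h4 : (cc A.reverse).eval x = 0 := (mem_roots'.1 hx).2
  rw [hev, h4, mul_zero, add_zero]

lemma cc_JJ (A : ℤ[X]) : cc (JJ A) =
    cc A * derivative (cc A.reverse) - derivative (cc A) * cc A.reverse := by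
  unfold JJ cc
  rw [Polynomial.map_sub, Polynomial.map_mul, Polynomial.map_mul, derivative_map, derivative_map]

lemma HH_pos {A : ℤ[X]} (h : Good A) (x : ℂ) : 0 < HH A x := by
  unfold HH
  rw [lt_max_iff]
  by_contra hc
  push Not at hc
  exact not_both h x ⟨norm_le_zero_iff.1 hc.1, norm_le_zero_iff.1 hc.2⟩

lemma JJ_ne {A : ℤ[X]} (h : Good A) : JJ A ≠ 0 := by
  intro h0
  have h1 := cc_JJ A
  rw [h0] at h1
  have h2 : cc A * derivative (cc A.reverse) = derivative (cc A) * cc A.reverse := by
    have : cc (0 : ℤ[X]) = 0 := by unfold cc; exact Polynomial.map_zero _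
    rw [this] at h1
    exact (sub_eq_zero.1 h1.symm)
  have h3 : cc A ∣ derivative (cc A) * cc A.reverse := ⟨_, h2.symm⟩
  have h4 : cc A ∣ derivative (cc A) := (good_coprime h).dvd_of_dvd_mul_right h3
  have h5 : derivative (cc A) = 0 := by
    by_contra h6
    have h7 := natDegree_le_of_dvd h4 h6
    have h8 := natDegree_derivative_lt (p := cc A) (by rw [natDegree_cc]; have := h.deg; omega)
    omega
  have h6 := derivative_eq_zero.1 h5
  rw [natDegree_cc] at h6
  have := h.deg
  omega

lemma JJ_deg {A : ℤ[X]} (h : Good A) : (JJ A).natDegree ≤ 2 * A.natDegree - 2 := by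
  obtain ⟨m, hm⟩ : ∃ m, A.natDegree = m + 1 := ⟨A.natDegree - 1, by have := h.deg; omega⟩
  have hB : A.reverse.natDegree = m + 1 := (natDegree_rev h).trans hm
  have hA' : (derivative A).natDegree ≤ m := (natDegree_derivative_le A).trans (by omega)
  have hB' : (derivative A.reverse).natDegree ≤ m :=
    (natDegree_derivative_le A.reverse).trans (by omega)
  have h1 : (JJ A).natDegree ≤ 2 * m + 1 := by
    unfold JJ
    refine (natDegree_sub_le _ _).trans (max_le ?_ ?_)
    · refine natDegree_mul_le.trans ?_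
      omega
    · refine natDegree_mul_le.trans ?_
      omega
  have h2 : (JJ A).coeff (2 * m + 1) = 0 := by
    unfold JJ
    rw [coeff_sub]
    have e1 : (A * derivative A.reverse).coeff (2 * m + 1) =
        A.coeff (m + 1) * (derivative A.reverse).coeff m := by
      rw [show 2 * m + 1 = (m + 1) + m by ring]
      exact coeff_mul_add_eq_of_natDegree_le hm.le hB'
    have e2 : (derivative A * A.reverse).coeff (2 * m + 1) =
        (derivative A).coeff m * A.reverse.coeff (m + 1) := by
      rw [show 2 * m + 1 = m + (m + 1) by ring]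
      exact coeff_mul_add_eq_of_natDegree_le hA' hB.le
    rw [e1, e2, coeff_derivative, coeff_derivative]
    ring
  rcases Nat.lt_or_ge (JJ A).natDegree (2 * m + 1) with h3 | h3
  · omega
  · exfalso
    have h4 : (JJ A).natDegree = 2 * m + 1 := le_antisymm h1 h3
    rw [← h4, coeff_natDegree] at h2
    exact JJ_ne h (leadingCoeff_eq_zero.1 h2)

theorem jb : S_JB := by
  intro A hA
  refine ⟨JJ_ne hA, JJ_deg hA, HH_pos hA, ?_⟩
  set a := A.natDegree with ha
  have ha1 : 1 ≤ a := hA.deg
  set J := JJ A with hJ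
  set B := A.reverse with hB
  have hJd : J.natDegree ≤ 2 * a - 2 := JJ_deg hA
  have hcard : (cc J).roots.card = J.natDegree := by
    rw [← natDegree_cc J]
    exact (IsAlgClosed.splits (cc J)).natDegree_eq_card_roots.symm
  -- a good integer
  obtain ⟨t, ht, hgood⟩ : ∃ t ∈ Finset.range (2 * a - 1), ∀ x ∈ (cc J).roots,
      (cc A).eval x ≠ t * (cc B).eval x := by
    by_contra hc
    push Not at hc
    choose! g hg1 hg2 using hc
    have hinj : Set.InjOn g (Finset.range (2 * a - 1) : Set ℕ) := by
      intro t ht t' ht' he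
      have h1 := hg2 t (by exact_mod_cast ht)
      have h2 := hg2 t' (by exact_mod_cast ht')
      rw [he] at h1
      rw [h1] at h2
      have h3 : (cc B).eval (g t') ≠ 0 := by
        intro h0
        rw [h0, mul_zero] at h1
        exact not_both hA _ ⟨h1, h0⟩
      have h4 := mul_right_cancel₀ h3 h2
      exact_mod_cast h4
    have h5 : (Finset.range (2 * a - 1)).card ≤ (cc J).roots.toFinset.card := by
      refine Finset.card_le_card_of_injOn g (fun t ht => ?_) hinj
      rw [Finset.mem_coe, Multiset.mem_toFinset]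
      exact hg1 t (by exact_mod_cast ht)
    have h6 := Multiset.toFinset_card_le (cc J).roots
    rw [Finset.card_range] at h5
    omega
  rw [Finset.mem_range] at ht
  set G : ℤ[X] := A - C (t : ℤ) * B with hG
  have hGe : ∀ x : ℂ, (cc G).eval x = (cc A).eval x - t * (cc B).eval x := by
    intro x
    rw [hG]
    unfold cc
    simp only [Polynomial.map_sub, Polynomial.map_mul, map_C, eval_sub, eval_mul, eval_C]
    congr 2
  have hGd : G.natDegree ≤ a := by
    refine (natDegree_sub_le _ _).trans (max_le le_rfl ?_)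
    refine (natDegree_C_mul_le _ _).trans ?_
    rw [hB, natDegree_rev hA]
  have hres := res_ge J G (JJ_ne hA) (by
    intro x hx
    rw [hGe, sub_ne_zero]
    exact hgood x hx)
  have hj1 : (1 : ℝ) ≤ |(J.leadingCoeff : ℝ)| := by
    have h6 : (1 : ℤ) ≤ |J.leadingCoeff| := Int.one_le_abs (leadingCoeff_ne_zero.2 (JJ_ne hA))
    have h7 : ((1 : ℤ) : ℝ) ≤ ((|J.leadingCoeff| : ℤ) : ℝ) := Int.cast_le.2 h6
    rw [Int.cast_one, Int.cast_abs] at h7
    exact h7
  have hpos : ∀ x ∈ (cc J).roots, 0 < ‖(cc G).eval x‖ := by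
    intro x hx
    rw [norm_pos_iff, hGe, sub_ne_zero]
    exact hgood x hx
  have hle : ∀ x : ℂ, ‖(cc G).eval x‖ ≤ (2 * a : ℝ) * HH A x := by
    intro x
    rw [hGe]
    have h1 : ‖(cc A).eval x‖ ≤ HH A x := le_max_left _ _
    have h2 : ‖(cc B).eval x‖ ≤ HH A x := le_max_right _ _
    have h3 : ‖(cc A).eval x - t * (cc B).eval x‖ ≤ HH A x + t * HH A x := by
      refine (norm_sub_le _ _).trans ?_
      rw [norm_mul, Complex.norm_natCast]
      gcongr
    have h4 : ((t : ℝ) + 1) ≤ 2 * a := by
      have : t + 1 ≤ 2 * a := by omega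
      exact_mod_cast this
    have h5 := HH_pos hA x
    nlinarith
  -- logarithms
  have hlog : ∀ s : Multiset ℂ, (∀ x ∈ s, 0 < ‖(cc G).eval x‖) →
      0 < (s.map fun x => ‖(cc G).eval x‖).prod ∧
      Real.log (s.map fun x => ‖(cc G).eval x‖).prod ≤
        s.card * Real.log (2 * a) + (s.map fun x => Real.log (HH A x)).sum := by
    intro s
    induction s using Multiset.induction_on with
    | empty => simp
    | cons x s ih =>
      intro h
      obtain ⟨h1, h2⟩ := ih fun y hy => h y (Multiset.mem_cons_of_mem hy)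
      have h3 := h x (Multiset.mem_cons_self x s)
      rw [Multiset.map_cons, Multiset.prod_cons, Multiset.map_cons, Multiset.sum_cons,
        Multiset.card_cons]
      refine ⟨mul_pos h3 h1, ?_⟩
      rw [Real.log_mul h3.ne' h1.ne']
      have h4 : Real.log ‖(cc G).eval x‖ ≤ Real.log (2 * a) + Real.log (HH A x) := by
        have ha0 : (2 * a : ℝ) ≠ 0 := by
          have : (1 : ℝ) ≤ a := by exact_mod_cast ha1
          positivity
        rw [← Real.log_mul ha0 (HH_pos hA x).ne']
        exact Real.log_le_log h3 (hle x)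
      push_cast
      linarith
  obtain ⟨h1, h2⟩ := hlog (cc J).roots hpos
  have h3 : (0 : ℝ) ≤ Real.log (|(J.leadingCoeff : ℝ)| ^ G.natDegree *
      ((cc J).roots.map fun x => ‖(cc G).eval x‖).prod) := Real.log_nonneg hres
  have hj0 : |(J.leadingCoeff : ℝ)| ≠ 0 := by linarith
  rw [Real.log_mul (pow_ne_zero _ hj0) h1.ne', Real.log_pow] at h3
  have hj2 : 0 ≤ Real.log |(J.leadingCoeff : ℝ)| := Real.log_nonneg hj1
  have h4 : (G.natDegree : ℝ) * Real.log |(J.leadingCoeff : ℝ)| ≤
      a * Real.log |(J.leadingCoeff : ℝ)| :=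
    mul_le_mul_of_nonneg_right (by exact_mod_cast hGd) hj2
  have h5 : (0 : ℝ) ≤ Real.log (2 * a) := by
    apply Real.log_nonneg
    have : (1 : ℝ) ≤ a := by exact_mod_cast ha1
    linarith
  have h6 : ((cc J).roots.card : ℝ) * Real.log (2 * a) ≤ 2 * a * Real.log (2 * a) := by
    refine mul_le_mul_of_nonneg_right ?_ h5
    rw [hcard]
    have : J.natDegree ≤ 2 * a := by omega
    exact_mod_cast this
  linarith

end Pool.Agent.Helper25.GP
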